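import Mathlib

/-!
The complement `G` of the graph of the icosahedron is gap-free, but the ideal `conn_3(G)` does
not have linear quotients, over any field.

Idea of the proof.  A linear-quotients order `m_1, ..., m_r` of squarefree generators of degree
`t` allows to extend, one generator at a time, every `ZMod 2`-valued function on `t`-sets whose
coboundary vanishes on all `(t+1)`-sets that contain no generator to a function whose coboundary
vanishes on all `(t+1)`-sets, changing it on generators only.  For the complement of the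
icosahedron and `t = 3` there is such a function with odd total on the twenty triangles of the
icosahedron (none of which is a generator), and a function with zero coboundary everywhere has
even total on the twenty triangles.
-/

namespace Pool.Agent.Results.MP_c1f45e_al.GapFreeCounterexample

open MvPolynomial

universe u

/-- The squarefree monomial `x_S`, the product of the variables in `S`. -/
noncomputable def xS (K : Type*) [Field K] {V : Type*} (S : Finset V) : MvPolynomial V K :=
  ∏ v ∈ S, X v

/-- The `t`-connected ideal `conn_t(G)`, generated by the monomials `x_S` for the `t`-element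
sets `S` of vertices such that the induced subgraph `G[S]` is connected. -/
noncomputable def connIdeal (K : Type*) [Field K] {V : Type*} (G : SimpleGraph V) (t : ℕ) :
    Ideal (MvPolynomial V K) :=
  Ideal.span {f | ∃ S : Finset V, S.card = t ∧ (G.induce (S : Set V)).Connected ∧ f = xS K S}

/-- `G` is gap-free: for any two disjoint edges `ab` and `cd`, some endpoint of `ab` is adjacent
to some endpoint of `cd`. -/
def GapFree {V : Type*} (G : SimpleGraph V) : Prop :=
  ∀ a b c d : V, G.Adj a b → G.Adj c d → a ≠ c → a ≠ d → b ≠ c → b ≠ d →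
    G.Adj a c ∨ G.Adj a d ∨ G.Adj b c ∨ G.Adj b d

/-- The (exponent vectors of the) minimal monomial generators of a monomial ideal `I`: the
monomials in `I` that are minimal with respect to divisibility. -/
def minGens {K : Type*} [Field K] {V : Type*} (I : Ideal (MvPolynomial V K)) : Set (V →₀ ℕ) :=
  {m | monomial m (1 : K) ∈ I ∧ ∀ m' : V →₀ ℕ, monomial m' (1 : K) ∈ I → m' ≤ m → m' = m}

/-- `I` has linear quotients: its minimal monomial generators can be ordered `m_0, ..., m_(r-1)`
(without repetition) so that for every `i ≥ 1` the colon ideal `(m_0, ..., m_(i-1)) : m_i` is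
generated by a set of variables. -/
def HasLinearQuotients {K : Type*} [Field K] {V : Type*} (I : Ideal (MvPolynomial V K)) : Prop :=
  ∃ (r : ℕ) (m : Fin r → (V →₀ ℕ)), Function.Injective m ∧ Set.range m = minGens I ∧
    ∀ i : Fin r, 0 < (i : ℕ) → ∃ A : Set V,
      (Ideal.span ((fun j : Fin r => monomial (m j) (1 : K)) '' {j | j < i})).colon
        {monomial (m i) (1 : K)} = Ideal.span (X '' A)

/-! ### Combinatorial core -/

section Core

variable {V : Type*} [DecidableEq V]

/-- The coboundary. -/
def cob (φ : Finset V → ZMod 2) (T : Finset V) : ZMod 2 := ∑ x ∈ T, φ (T.erase x)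

theorem cob_cob (φ : Finset V → ZMod 2) (Q : Finset V) : ∑ x ∈ Q, cob φ (Q.erase x) = 0 := by
  unfold cob
  rw [Finset.sum_sigma']
  refine Finset.sum_involution (fun p _ => ⟨p.2, p.1⟩) ?_ ?_ ?_ ?_
  · rintro ⟨x, y⟩ h
    simp only [Finset.erase_right_comm]
    exact CharTwo.add_self_eq_zero _
  · rintro ⟨x, y⟩ h _ heq
    simp only [Finset.mem_sigma, Finset.mem_erase] at h
    simp only [Sigma.mk.injEq, heq_eq_eq] at heq
    exact h.2.1 heq.1
  · rintro ⟨x, y⟩ h
    simp only [Finset.mem_sigma, Finset.mem_erase] at h ⊢
    exact ⟨h.2.2, fun e => h.2.1 e.symm, h.1⟩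
  · rintro ⟨x, y⟩ h
    rfl

theorem core {r t : ℕ} (S : Fin r → Finset V) (hcard : ∀ i, (S i).card = t)
    (hlq : ∀ i j : Fin r, j < i → ∃ l : Fin r, l < i ∧ ∃ v ∈ S j, v ∉ S i ∧ S l ⊆ insert v (S i))
    (k : ℕ) (hk : k ≤ r) :
    ∀ φ : Finset V → ZMod 2,
      (∀ T : Finset V, T.card = t + 1 → (∀ i : Fin r, (i : ℕ) < k → ¬ S i ⊆ T) → cob φ T = 0) →
      ∃ ψ : Finset V → ZMod 2, (∀ M : Finset V, (∀ i : Fin r, M ≠ S i) → ψ M = φ M) ∧
        ∀ T : Finset V, T.card = t + 1 → cob ψ T = 0 := by
  induction k with
  | zero =>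
    intro φ hφ
    exact ⟨φ, fun _ _ => rfl, fun T hT => hφ T hT (fun i hi => absurd hi (Nat.not_lt_zero _))⟩
  | succ k ih =>
    intro φ hφ
    have hkr : k < r := hk
    set i0 : Fin r := ⟨k, hkr⟩ with hi0
    set M : Finset V := S i0 with hM
    have hMcard : M.card = t := hcard i0
    -- the value forced by a vertex `w`
    let g : V → ZMod 2 := fun w => ∑ x ∈ M, φ ((insert w M).erase x)
    let W : Set V := {w | w ∉ M ∧ ∀ i : Fin r, (i : ℕ) < k → ¬ S i ⊆ insert w M}
    have hg : ∀ w ∈ W, ∀ w' ∈ W, g w = g w' := by
      intro w hw w' hw'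
      by_cases hww : w = w'
      · rw [hww]
      have hwM : w ∉ M := hw.1
      have hw'M : w' ∉ M := hw'.1
      set Q : Finset V := insert w (insert w' M) with hQ
      have hwQ : w ∉ insert w' M := by
        simp [hww, hwM]
      have hw'Q : w' ∉ insert w M := by
        simp [Ne.symm hww, hw'M]
      have hQcard : Q.card = t + 2 := by
        rw [hQ, Finset.card_insert_of_notMem hwQ, Finset.card_insert_of_notMem hw'M, hMcard]
      -- no earlier generator inside `Q`
      have hnoQ : ∀ j : Fin r, (j : ℕ) < k → ¬ S j ⊆ Q := by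
        intro j hj hsub
        obtain ⟨l, hl, v, hv, hvM, hlsub⟩ := hlq i0 j (by
          rw [Fin.lt_def]; exact hj)
        have hlk : (l : ℕ) < k := by
          have := Fin.lt_def.mp hl
          simpa [hi0] using this
        have hvQ : v ∈ Q := hsub hv
        rw [hQ, Finset.mem_insert, Finset.mem_insert] at hvQ
        rcases hvQ with h | h | h
        · subst h; exact hw.2 l hlk hlsub
        · subst h; exact hw'.2 l hlk hlsub
        · exact hvM h
      have hdd := cob_cob φ Q
      have hQ2 : Q = insert w (insert w' M) := rfl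
      rw [hQ2, Finset.sum_insert hwQ, Finset.sum_insert hw'M] at hdd
      have e1 : (insert w (insert w' M)).erase w = insert w' M := Finset.erase_insert hwQ
      have e2 : (insert w (insert w' M)).erase w' = insert w M := by
        rw [Finset.insert_comm]; exact Finset.erase_insert hw'Q
      have e3 : ∑ x ∈ M, cob φ ((insert w (insert w' M)).erase x) = 0 := by
        apply Finset.sum_eq_zero
        intro x hx
        have hxQ : x ∈ insert w (insert w' M) := by simp [hx]
        apply hφ
        · rw [Finset.card_erase_of_mem hxQ, ← hQ2, hQcard]; rfl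
        · intro i hi hsub
          rcases Nat.lt_succ_iff_lt_or_eq.mp hi with h | h
          · exact hnoQ i h (hsub.trans (Finset.erase_subset _ _))
          · have : i = i0 := Fin.ext h
            rw [this] at hsub
            have := hsub hx
            simp at this
      rw [e1, e2, e3, add_zero] at hdd
      have c1 : cob φ (insert w' M) = φ M + g w' := by
        unfold cob
        rw [Finset.sum_insert hw'M, Finset.erase_insert hw'M]
      have c2 : cob φ (insert w M) = φ M + g w := by
        unfold cob
        rw [Finset.sum_insert hwM, Finset.erase_insert hwM]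
      rw [c1, c2] at hdd
      have h2 : φ M + φ M = 0 := CharTwo.add_self_eq_zero _
      have : g w' + g w = 0 := by
        have h3 : φ M + g w' + (φ M + g w) = (φ M + φ M) + (g w' + g w) := by ring
        rw [h3, h2, zero_add] at hdd
        exact hdd
      have h4 : g w = - g w' := by
        rw [eq_neg_iff_add_eq_zero, add_comm]; exact this
      rw [h4, CharTwo.neg_eq]
    obtain ⟨c, hc⟩ : ∃ c : ZMod 2, ∀ w ∈ W, g w = c := by
      by_cases hW : ∃ w, w ∈ W
      · obtain ⟨w, hw⟩ := hW
        exact ⟨g w, fun w' hw' => hg w' hw' w hw⟩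
      · exact ⟨0, fun w hw => absurd ⟨w, hw⟩ hW⟩
    obtain ⟨ψ, hψ1, hψ2⟩ := ih (Nat.le_of_lt hkr) (Function.update φ M c) (by
      intro T hT hno
      by_cases hMT : M ⊆ T
      · -- `T = insert w M`
        have hcd : (T \ M).card = 1 := by
          rw [Finset.card_sdiff_of_subset hMT, hT, hMcard]; omega
        obtain ⟨w, hw⟩ := Finset.card_eq_one.mp hcd
        have hwM : w ∉ M := by
          have : w ∈ T \ M := by rw [hw]; simp
          exact (Finset.mem_sdiff.mp this).2
        have hTeq : T = insert w M := by
          rw [← Finset.sdiff_union_of_subset hMT, hw]; rfl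
        have hwW : w ∈ W := ⟨hwM, fun i hi => by rw [← hTeq]; exact hno i hi⟩
        rw [hTeq]
        unfold cob
        rw [Finset.sum_insert hwM, Finset.erase_insert hwM, Function.update_self]
        have : ∑ x ∈ M, Function.update φ M c ((insert w M).erase x) = g w := by
          apply Finset.sum_congr rfl
          intro x hx
          rw [Function.update_of_ne]
          intro h
          have : x ∈ (insert w M).erase x := by rw [h]; exact hx
          simp at this
        rw [this, hc w hwW]
        exact CharTwo.add_self_eq_zero _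
      · -- `T` does not contain `M`
        have : cob (Function.update φ M c) T = cob φ T := by
          unfold cob
          apply Finset.sum_congr rfl
          intro x _
          rw [Function.update_of_ne]
          intro h
          exact hMT (h ▸ Finset.erase_subset _ _)
        rw [this]
        apply hφ T hT
        intro i hi
        rcases Nat.lt_succ_iff_lt_or_eq.mp hi with h | h
        · exact hno i h
        · have : i = i0 := Fin.ext h
          rw [this]; exact hMT)
    refine ⟨ψ, fun N hN => ?_, hψ2⟩
    rw [hψ1 N hN, Function.update_of_ne]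
    exact hN i0

end Core

/-! ### From linear quotients to the combinatorial condition -/

section Algebra

variable {V : Type*} [DecidableEq V]

/-- exponent vector of `x_S` -/
noncomputable def ind (S : Finset V) : V →₀ ℕ := ∑ v ∈ S, Finsupp.single v 1

theorem ind_apply (S : Finset V) (v : V) : ind S v = if v ∈ S then 1 else 0 := by
  unfold ind
  rw [Finsupp.finsetSum_apply]
  simp [Finsupp.single_apply]

theorem ind_le_iff (S : Finset V) (m : V →₀ ℕ) : ind S ≤ m ↔ ∀ v ∈ S, 1 ≤ m v := by
  constructor
  · intro h v hv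
    have := h v
    rw [ind_apply, if_pos hv] at this
    exact this
  · intro h v
    rw [ind_apply]
    split_ifs with hv
    · exact h v hv
    · exact Nat.zero_le _

theorem ind_le_ind {S T : Finset V} : ind S ≤ ind T ↔ S ⊆ T := by
  rw [ind_le_iff]
  constructor
  · intro h v hv
    have := h v hv
    rw [ind_apply] at this
    by_contra hn
    rw [if_neg hn] at this
    omega
  · intro h v hv
    rw [ind_apply, if_pos (h hv)]

theorem ind_injective : Function.Injective (ind : Finset V → (V →₀ ℕ)) := by
  intro S T h
  exact Finset.Subset.antisymm (ind_le_ind.mp (le_of_eq h)) (ind_le_ind.mp (le_of_eq h.symm))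

omit [DecidableEq V] in
theorem xS_eq (K : Type*) [Field K] (S : Finset V) : xS K S = monomial (ind S) (1 : K) := by
  unfold xS ind
  rw [monomial_sum_one]
  rfl

variable (K : Type*) [Field K] (G : SimpleGraph V) (t : ℕ)

/-- the generating sets -/
def GenSet : Set (Finset V) := {S | S.card = t ∧ (G.induce (S : Set V)).Connected}

omit [DecidableEq V] in
theorem connIdeal_eq : connIdeal K G t =
    Ideal.span ((fun s => monomial s (1 : K)) '' (ind '' GenSet G t)) := by
  unfold connIdeal
  congr 1
  ext f
  simp only [Set.mem_ofPred_eq, Set.mem_image, GenSet, exists_exists_and_eq_and]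
  constructor
  · rintro ⟨S, h1, h2, h3⟩
    exact ⟨S, ⟨h1, h2⟩, by rw [h3, xS_eq]⟩
  · rintro ⟨S, ⟨h1, h2⟩, h3⟩
    exact ⟨S, h1, h2, by rw [← h3, xS_eq]⟩

omit [DecidableEq V] in
theorem monomial_mem_span_iff (E : Set (V →₀ ℕ)) (m : V →₀ ℕ) :
    monomial m (1 : K) ∈ Ideal.span ((fun s => monomial s (1 : K)) '' E) ↔ ∃ e ∈ E, e ≤ m := by
  rw [mem_ideal_span_monomial_image]
  classical
  rw [support_monomial, if_neg (one_ne_zero)]
  simp

omit [DecidableEq V] in
theorem mem_connIdeal_iff (m : V →₀ ℕ) :
    monomial m (1 : K) ∈ connIdeal K G t ↔ ∃ S ∈ GenSet G t, ind S ≤ m := by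
  rw [connIdeal_eq, monomial_mem_span_iff]
  simp

theorem minGens_connIdeal : minGens (connIdeal K G t) = ind '' GenSet G t := by
  ext m
  constructor
  · rintro ⟨h1, h2⟩
    obtain ⟨S, hS, hle⟩ := (mem_connIdeal_iff K G t m).mp h1
    exact ⟨S, hS, h2 _ ((mem_connIdeal_iff K G t _).mpr ⟨S, hS, le_rfl⟩) hle⟩
  · rintro ⟨S, hS, rfl⟩
    refine ⟨(mem_connIdeal_iff K G t _).mpr ⟨S, hS, le_rfl⟩, ?_⟩
    intro m' hm' hle
    obtain ⟨S', hS', hle'⟩ := (mem_connIdeal_iff K G t m').mp hm'
    have hsub : S' ⊆ S := ind_le_ind.mp (hle'.trans hle)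
    have heq : S' = S := Finset.eq_of_subset_of_card_le hsub (by rw [hS.1, hS'.1])
    subst heq
    exact le_antisymm hle hle'

theorem comb_of_linearQuotients (h : HasLinearQuotients (connIdeal K G t)) :
    ∃ (r : ℕ) (S : Fin r → Finset V), (∀ i, (S i).card = t) ∧
      (∀ i, (G.induce ((S i : Finset V) : Set V)).Connected) ∧
      (∀ M : Finset V, M.card = t → (G.induce (M : Set V)).Connected → ∃ i, M = S i) ∧
      (∀ i j : Fin r, j < i →
        ∃ l : Fin r, l < i ∧ ∃ v ∈ S j, v ∉ S i ∧ S l ⊆ insert v (S i)) := by
  obtain ⟨r, m, hinj, hrange, hcol⟩ := h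
  rw [minGens_connIdeal] at hrange
  have hm : ∀ i, ∃ S ∈ GenSet G t, ind S = m i := by
    intro i
    have : m i ∈ ind '' GenSet G t := by rw [← hrange]; exact ⟨i, rfl⟩
    exact this
  choose S hS hSm using hm
  refine ⟨r, S, fun i => (hS i).1, fun i => (hS i).2, ?_, ?_⟩
  · intro M hM1 hM2
    have : ind M ∈ Set.range m := by rw [hrange]; exact ⟨M, ⟨hM1, hM2⟩, rfl⟩
    obtain ⟨i, hi⟩ := this
    exact ⟨i, ind_injective (by rw [hSm i, hi])⟩
  · intro i j hji
    obtain ⟨A, hA⟩ := hcol i (lt_of_le_of_lt (Nat.zero_le _) (Fin.lt_def.mp hji))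
    -- membership of monomials in the colon ideal
    have key : ∀ e : V →₀ ℕ, monomial e (1 : K) ∈ (Ideal.span
        ((fun j : Fin r => monomial (m j) (1 : K)) '' {j | j < i})).colon
        {monomial (m i) (1 : K)} ↔ ∃ l : Fin r, l < i ∧ m l ≤ e + m i := by
      intro e
      rw [Submodule.mem_colon_singleton, smul_eq_mul, monomial_mul, one_mul]
      have : ((fun j : Fin r => monomial (m j) (1 : K)) '' {j | j < i}) =
          ((fun s => monomial s (1 : K)) '' (m '' {j | j < i})) := by
        rw [Set.image_image]
      rw [this, monomial_mem_span_iff]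
      simp
    have h1 : monomial (ind (S j \ S i)) (1 : K) ∈ (Ideal.span
        ((fun j : Fin r => monomial (m j) (1 : K)) '' {j | j < i})).colon
        {monomial (m i) (1 : K)} := by
      rw [key]
      refine ⟨j, hji, ?_⟩
      rw [← hSm j, ← hSm i, ind_le_iff]
      intro v hv
      rw [Finsupp.add_apply, ind_apply, ind_apply]
      by_cases hvi : v ∈ S i
      · rw [if_pos hvi]; omega
      · rw [if_pos (Finset.mem_sdiff.mpr ⟨hv, hvi⟩)]; omega
    rw [hA, mem_ideal_span_X_image] at h1
    obtain ⟨v, hvA, hv⟩ := h1 (ind (S j \ S i)) (by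
      classical
      rw [support_monomial, if_neg (one_ne_zero)]
      simp)
    rw [ind_apply] at hv
    have hv2 : v ∈ S j \ S i := by
      by_contra hn
      rw [if_neg hn] at hv
      exact hv rfl
    have h2 : monomial (Finsupp.single v 1) (1 : K) ∈ Ideal.span (X '' A : Set (MvPolynomial V K)) :=
      Ideal.subset_span ⟨v, hvA, rfl⟩
    rw [← hA, key] at h2
    obtain ⟨l, hl, hle⟩ := h2
    refine ⟨l, hl, v, (Finset.mem_sdiff.mp hv2).1, (Finset.mem_sdiff.mp hv2).2, ?_⟩
    rw [← hSm l, ← hSm i, ind_le_iff] at hle
    intro x hx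
    have := hle x hx
    rw [Finsupp.add_apply, ind_apply, Finsupp.single_apply] at this
    rw [Finset.mem_insert]
    by_contra hn
    push Not at hn
    rw [if_neg (Ne.symm hn.1), if_neg hn.2] at this
    omega

end Algebra

/-! ### The icosahedron -/

/-- rows of the adjacency matrix of the icosahedron, as bit masks -/
def rows : List ℕ := [62, 229, 395, 789, 1577, 1107, 3234, 2374, 2700, 3352, 2672, 1984]

/-- adjacency in the icosahedron -/
def ico (a b : Fin 12) : Bool := (rows.getD (a : ℕ) 0).testBit (b : ℕ)

/-- adjacency in the complement of the icosahedron -/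
def adjB (a b : Fin 12) : Bool := !(ico a b) && !(a == b)

theorem adjB_symm : ∀ a b : Fin 12, adjB a b = adjB b a := by decide +kernel

theorem adjB_irrefl : ∀ a : Fin 12, adjB a a = false := by decide +kernel

/-- the complement of the graph of the icosahedron -/
def G : SimpleGraph (Fin 12) where
  Adj a b := adjB a b = true
  symm := ⟨fun a b h => by rw [adjB_symm]; exact h⟩
  loopless := ⟨fun a h => by rw [adjB_irrefl] at h; exact Bool.false_ne_true h⟩

theorem gapFree_bool : ∀ a b c d : Fin 12, adjB a b = true → adjB c d = true →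
    a ≠ c → a ≠ d → b ≠ c → b ≠ d →
    adjB a c = true ∨ adjB a d = true ∨ adjB b c = true ∨ adjB b d = true := by
  decide +kernel

theorem gapFree_G : GapFree G := gapFree_bool

/-- at least two of the three pairs are adjacent -/
def two (a b c : Fin 12) : Bool :=
  (adjB a b && adjB b c) || (adjB a b && adjB a c) || (adjB a c && adjB b c)

theorem connected_of_path (M : Finset (Fin 12)) (a b c : Fin 12) (hM : ∀ x, x ∈ M ↔ x = a ∨ x = b ∨ x = c)
    (h1 : adjB b a = true) (h2 : adjB b c = true) : (G.induce (M : Set (Fin 12))).Connected := by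
  have hb : b ∈ (M : Set (Fin 12)) := by simp [hM]
  rw [SimpleGraph.connected_iff_exists_forall_reachable]
  refine ⟨⟨b, hb⟩, ?_⟩
  rintro ⟨x, hx⟩
  have hx' : x ∈ M := hx
  rw [hM] at hx'
  rcases hx' with rfl | rfl | rfl
  · exact SimpleGraph.Adj.reachable (show G.Adj b x from h1)
  · exact SimpleGraph.Reachable.refl _
  · exact SimpleGraph.Adj.reachable (show G.Adj b x from h2)

theorem connected_of_two (a b c : Fin 12) (h : two a b c = true) :
    (G.induce (({a, b, c} : Finset (Fin 12)) : Set (Fin 12))).Connected := by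
  unfold two at h
  simp only [Bool.or_eq_true, Bool.and_eq_true] at h
  rcases h with (h | h) | h
  · exact connected_of_path _ a b c (by intro x; simp) (by rw [adjB_symm]; exact h.1) h.2
  · exact connected_of_path _ b a c (by intro x; simp; tauto) h.1 h.2
  · exact connected_of_path _ a c b (by intro x; simp; tauto) (by rw [adjB_symm]; exact h.1)
      (by rw [adjB_symm]; exact h.2)

theorem not_connected_of_none (a b c : Fin 12) (hab : a ≠ b) (h1 : adjB a b = false)
    (h2 : adjB a c = false) :
    ¬ (G.induce (({a, b, c} : Finset (Fin 12)) : Set (Fin 12))).Connected := by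
  intro h
  have ha : a ∈ (({a, b, c} : Finset (Fin 12)) : Set (Fin 12)) := by simp
  have hb : b ∈ (({a, b, c} : Finset (Fin 12)) : Set (Fin 12)) := by simp
  obtain ⟨p⟩ := h.preconnected ⟨a, ha⟩ ⟨b, hb⟩
  have hne : (⟨a, ha⟩ : ((({a, b, c} : Finset (Fin 12)) : Set (Fin 12)))) ≠ ⟨b, hb⟩ :=
    fun e => hab (congrArg Subtype.val e)
  have hex : ∃ v : ((({a, b, c} : Finset (Fin 12)) : Set (Fin 12))),
      (G.induce (({a, b, c} : Finset (Fin 12)) : Set (Fin 12))).Adj ⟨a, ha⟩ v := by
    cases p with
    | nil => exact absurd rfl hne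
    | cons hadj _ => exact ⟨_, hadj⟩
  · obtain ⟨⟨v, hv⟩, hadj⟩ := hex
    have hadj' : adjB a v = true := hadj
    have hv' : v = a ∨ v = b ∨ v = c := by simpa using hv
    rcases hv' with rfl | rfl | rfl
    · rw [adjB_irrefl] at hadj'; exact Bool.false_ne_true hadj'
    · rw [h1] at hadj'; exact Bool.false_ne_true hadj'
    · rw [h2] at hadj'; exact Bool.false_ne_true hadj'

/-- the cochain -/
def phi (S : Finset (Fin 12)) : ZMod 2 :=
  if S = {0, 1, 2} ∨ S = {0, 2, 5} ∨ S = {0, 1, 3} ∨ S = {0, 1, 7} then 1 else 0

theorem phi_check : ∀ a b c d : Fin 12, a ≠ b → a ≠ c → a ≠ d → b ≠ c → b ≠ d → c ≠ d →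
    two a b c = false → two a b d = false → two a c d = false → two b c d = false →
    phi {b, c, d} + phi {a, c, d} + phi {a, b, d} + phi {a, b, c} = 0 := by
  decide +kernel

theorem cob_four (ψ : Finset (Fin 12) → ZMod 2) (a b c d : Fin 12) (hab : a ≠ b) (hac : a ≠ c)
    (had : a ≠ d) (hbc : b ≠ c) (hbd : b ≠ d) (hcd : c ≠ d) :
    cob ψ {a, b, c, d} = ψ {b, c, d} + ψ {a, c, d} + ψ {a, b, d} + ψ {a, b, c} := by
  unfold cob
  have e1 : ({a, b, c, d} : Finset (Fin 12)).erase a = {b, c, d} := by
    ext x; simp only [Finset.mem_erase, Finset.mem_insert, Finset.mem_singleton]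
    constructor
    · rintro ⟨h1, h2⟩; tauto
    · intro h; refine ⟨?_, by tauto⟩; rintro rfl; tauto
  have e2 : ({a, b, c, d} : Finset (Fin 12)).erase b = {a, c, d} := by
    ext x; simp only [Finset.mem_erase, Finset.mem_insert, Finset.mem_singleton]
    constructor
    · rintro ⟨h1, h2⟩; tauto
    · intro h; refine ⟨?_, by tauto⟩; rintro rfl; tauto
  have e3 : ({a, b, c, d} : Finset (Fin 12)).erase c = {a, b, d} := by
    ext x; simp only [Finset.mem_erase, Finset.mem_insert, Finset.mem_singleton]
    constructor
    · rintro ⟨h1, h2⟩; tauto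
    · intro h; refine ⟨?_, by tauto⟩; rintro rfl; tauto
  have e4 : ({a, b, c, d} : Finset (Fin 12)).erase d = {a, b, c} := by
    ext x; simp only [Finset.mem_erase, Finset.mem_insert, Finset.mem_singleton]
    constructor
    · rintro ⟨h1, h2⟩; tauto
    · intro h; refine ⟨?_, by tauto⟩; rintro rfl; tauto
  rw [Finset.sum_insert (by simp [hab, hac, had]), Finset.sum_insert (by simp [hbc, hbd]),
    Finset.sum_insert (by simp [hcd]), Finset.sum_singleton, e1, e2, e3, e4]
  ring

theorem not_linearQuotients (K : Type*) [Field K] : ¬ HasLinearQuotients (connIdeal K G 3) := by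
  intro h
  obtain ⟨r, S, hcard, hconn, hall, hlq⟩ := comb_of_linearQuotients K G 3 h
  obtain ⟨ψ, hψ1, hψ2⟩ := core S hcard hlq r le_rfl phi (by
    intro T hT hno
    obtain ⟨a, T', haT', rfl, hT'⟩ := Finset.card_eq_succ.mp hT
    obtain ⟨b, c, d, hbc, hbd, hcd, rfl⟩ := Finset.card_eq_three.mp hT'
    simp only [Finset.mem_insert, Finset.mem_singleton, not_or] at haT'
    obtain ⟨hab, hac, had⟩ := haT'
    have hnot : ∀ x y z : Fin 12, x ≠ y → x ≠ z → y ≠ z →
        ({x, y, z} : Finset (Fin 12)) ⊆ insert a {b, c, d} → two x y z = false := by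
      intro x y z hxy hxz hyz hsub
      by_contra htwo
      rw [Bool.not_eq_false] at htwo
      obtain ⟨i, hi⟩ := hall {x, y, z} (Finset.card_eq_three.mpr ⟨x, y, z, hxy, hxz, hyz, rfl⟩)
        (connected_of_two x y z htwo)
      exact hno i i.2 (hi ▸ hsub)
    have := cob_four phi a b c d hab hac had hbc hbd hcd
    rw [this]
    refine phi_check a b c d hab hac had hbc hbd hcd ?_ ?_ ?_ ?_
    · exact hnot a b c hab hac hbc (by intro x; simp; tauto)
    · exact hnot a b d hab had hbd (by intro x; simp; tauto)
    · exact hnot a c d hac had hcd (by intro x; simp; tauto)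
    · exact hnot b c d hbc hbd hcd (by intro x; simp; tauto))
  -- on triangles of the icosahedron `ψ` agrees with `phi`
  have htri : ∀ a b c : Fin 12, a ≠ b → adjB a b = false → adjB a c = false →
      ψ {a, b, c} = phi {a, b, c} := by
    intro a b c hab h1 h2
    apply hψ1
    intro i hi
    exact not_connected_of_none a b c hab h1 h2 (hi ▸ hconn i)
  have hz : ∀ b c d : Fin 12, (0 : Fin 12) ≠ b → (0 : Fin 12) ≠ c → (0 : Fin 12) ≠ d → b ≠ c → b ≠ d →
      c ≠ d → ψ {b, c, d} + ψ {0, c, d} + ψ {0, b, d} + ψ {0, b, c} = 0 := by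
    intro b c d h0b h0c h0d hbc hbd hcd
    rw [← cob_four ψ 0 b c d h0b h0c h0d hbc hbd hcd]
    apply hψ2
    rw [Finset.card_insert_of_notMem (by simp [h0b, h0c, h0d]),
      Finset.card_insert_of_notMem (by simp [hbc, hbd]),
      Finset.card_insert_of_notMem (by simp [hcd]), Finset.card_singleton]
  have a1 := hz 1 2 7 (by decide) (by decide) (by decide) (by decide) (by decide) (by decide)
  have a2 := hz 1 5 6 (by decide) (by decide) (by decide) (by decide) (by decide) (by decide)
  have a3 := hz 1 6 7 (by decide) (by decide) (by decide) (by decide) (by decide) (by decide)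
  have a4 := hz 2 3 8 (by decide) (by decide) (by decide) (by decide) (by decide) (by decide)
  have a5 := hz 2 7 8 (by decide) (by decide) (by decide) (by decide) (by decide) (by decide)
  have a6 := hz 3 4 9 (by decide) (by decide) (by decide) (by decide) (by decide) (by decide)
  have a7 := hz 3 8 9 (by decide) (by decide) (by decide) (by decide) (by decide) (by decide)
  have a8 := hz 4 5 10 (by decide) (by decide) (by decide) (by decide) (by decide) (by decide)
  have a9 := hz 4 9 10 (by decide) (by decide) (by decide) (by decide) (by decide) (by decide)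
  have a10 := hz 5 6 10 (by decide) (by decide) (by decide) (by decide) (by decide) (by decide)
  have a11 := hz 6 7 11 (by decide) (by decide) (by decide) (by decide) (by decide) (by decide)
  have a12 := hz 6 10 11 (by decide) (by decide) (by decide) (by decide) (by decide) (by decide)
  have a13 := hz 7 8 11 (by decide) (by decide) (by decide) (by decide) (by decide) (by decide)
  have a14 := hz 8 9 11 (by decide) (by decide) (by decide) (by decide) (by decide) (by decide)
  have a15 := hz 9 10 11 (by decide) (by decide) (by decide) (by decide) (by decide) (by decide)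
  have b1 := htri 1 2 7 (by decide) (by decide +kernel) (by decide +kernel)
  have b2 := htri 1 5 6 (by decide) (by decide +kernel) (by decide +kernel)
  have b3 := htri 1 6 7 (by decide) (by decide +kernel) (by decide +kernel)
  have b4 := htri 2 3 8 (by decide) (by decide +kernel) (by decide +kernel)
  have b5 := htri 2 7 8 (by decide) (by decide +kernel) (by decide +kernel)
  have b6 := htri 3 4 9 (by decide) (by decide +kernel) (by decide +kernel)
  have b7 := htri 3 8 9 (by decide) (by decide +kernel) (by decide +kernel)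
  have b8 := htri 4 5 10 (by decide) (by decide +kernel) (by decide +kernel)
  have b9 := htri 4 9 10 (by decide) (by decide +kernel) (by decide +kernel)
  have b10 := htri 5 6 10 (by decide) (by decide +kernel) (by decide +kernel)
  have b11 := htri 6 7 11 (by decide) (by decide +kernel) (by decide +kernel)
  have b12 := htri 6 10 11 (by decide) (by decide +kernel) (by decide +kernel)
  have b13 := htri 7 8 11 (by decide) (by decide +kernel) (by decide +kernel)
  have b14 := htri 8 9 11 (by decide) (by decide +kernel) (by decide +kernel)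
  have b15 := htri 9 10 11 (by decide) (by decide +kernel) (by decide +kernel)
  have c1 := htri 0 1 2 (by decide) (by decide +kernel) (by decide +kernel)
  have c2 := htri 0 2 3 (by decide) (by decide +kernel) (by decide +kernel)
  have c3 := htri 0 3 4 (by decide) (by decide +kernel) (by decide +kernel)
  have c4 := htri 0 4 5 (by decide) (by decide +kernel) (by decide +kernel)
  have c5 := htri 0 1 5 (by decide) (by decide +kernel) (by decide +kernel)
  have p1 : phi {1, 2, 7} = 0 := by decide +kernel
  have p2 : phi {1, 5, 6} = 0 := by decide +kernel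
  have p3 : phi {1, 6, 7} = 0 := by decide +kernel
  have p4 : phi {2, 3, 8} = 0 := by decide +kernel
  have p5 : phi {2, 7, 8} = 0 := by decide +kernel
  have p6 : phi {3, 4, 9} = 0 := by decide +kernel
  have p7 : phi {3, 8, 9} = 0 := by decide +kernel
  have p8 : phi {4, 5, 10} = 0 := by decide +kernel
  have p9 : phi {4, 9, 10} = 0 := by decide +kernel
  have p10 : phi {5, 6, 10} = 0 := by decide +kernel
  have p11 : phi {6, 7, 11} = 0 := by decide +kernel
  have p12 : phi {6, 10, 11} = 0 := by decide +kernel
  have p13 : phi {7, 8, 11} = 0 := by decide +kernel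
  have p14 : phi {8, 9, 11} = 0 := by decide +kernel
  have p15 : phi {9, 10, 11} = 0 := by decide +kernel
  have q1 : phi {0, 1, 2} = 1 := by decide +kernel
  have q2 : phi {0, 2, 3} = 0 := by decide +kernel
  have q3 : phi {0, 3, 4} = 0 := by decide +kernel
  have q4 : phi {0, 4, 5} = 0 := by decide +kernel
  have q5 : phi {0, 1, 5} = 0 := by decide +kernel
  rw [p1] at b1; rw [p2] at b2; rw [p3] at b3; rw [p4] at b4; rw [p5] at b5
  rw [p6] at b6; rw [p7] at b7; rw [p8] at b8; rw [p9] at b9; rw [p10] at b10
  rw [p11] at b11; rw [p12] at b12; rw [p13] at b13; rw [p14] at b14; rw [p15] at b15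
  rw [q1] at c1; rw [q2] at c2; rw [q3] at c3; rw [q4] at c4; rw [q5] at c5
  rw [b1, c1] at a1
  rw [b2, c5] at a2
  rw [b3] at a3
  rw [b4, c2] at a4
  rw [b5] at a5
  rw [b6, c3] at a6
  rw [b7] at a7
  rw [b8, c4] at a8
  rw [b9] at a9
  rw [b10] at a10
  rw [b11] at a11
  rw [b12] at a12
  rw [b13] at a13
  rw [b14] at a14
  rw [b15] at a15
  have h2 : (2 : ZMod 2) = 0 := by decide
  have hone : (1 : ZMod 2) = 0 := by
    linear_combination a1 + a2 + a3 + a4 + a5 + a6 + a7 + a8 + a9 + a10 + a11 + a12 + a13 + a14
      + a15 - (ψ {0, 1, 6} + ψ {0, 1, 7} + ψ {0, 2, 7} + ψ {0, 2, 8} + ψ {0, 3, 8} + ψ {0, 3, 9}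
      + ψ {0, 4, 9} + ψ {0, 4, 10} + ψ {0, 5, 10} + ψ {0, 5, 6} + ψ {0, 6, 7} + ψ {0, 7, 8}
      + ψ {0, 8, 9} + ψ {0, 9, 10} + ψ {0, 6, 10} + ψ {0, 6, 11} + ψ {0, 7, 11} + ψ {0, 8, 11}
      + ψ {0, 9, 11} + ψ {0, 10, 11}) * h2
  exact absurd hone (by decide)

/-- There is a gap-free graph `G` on twelve vertices such that, over every field, the ideal
`conn_3(G)` does not have linear quotients. -/
theorem result : ∃ G : SimpleGraph (Fin 12), GapFree G ∧
    ∀ (K : Type u) [Field K], ¬ HasLinearQuotients (connIdeal K G 3) :=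
  ⟨G, gapFree_G, fun K _ => not_linearQuotients K⟩

end Pool.Agent.Results.MP_c1f45e_al.GapFreeCounterexample
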